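import Mathlib
import Pool.Agent.TP.Defs
import Pool.Agent.TP.Bridge

/-!
# The Tate conjecture for all varieties dominated by pieces with neat Frobenius spectrum

`k` is a finite field with `q` elements, `C` any Weil cohomology theory on the smooth proper schemes
over `k` with coefficients in an algebraically closed field `K` of characteristic zero, for instance
`l`-adic cohomology. `C.Alg X i x` says that the cohomology class `x` on `X` is obtained from unit
classes by linear combinations, products, inverse images and direct images; such classes are
linear combinations of classes of algebraic cycles of codimension `i` (and the class of a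
subvariety is of this kind, by de Jong's alterations). `C.Tate Z` is the Tate conjecture for `Z`
in all codimensions.
-/

set_option autoImplicit false

universe u v w x

open CategoryTheory AlgebraicGeometry Pool.Agent.TP

namespace Pool.Agent.Results.MP_2a05c8_ag.NeatFrobenius

/-- Let `X a` be smooth proper schemes over the field `k` with `q` elements and `j a` degrees
such that
* the Tate classes of degree `j a` on `X a` are algebraic;
* for every other eigenvalue `z` of Frobenius on the cohomology of `X a` in degree `j a`, either
  `z` is a simple eigenvalue of Frobenius on the cohomology of `X a` (and `j a = dim (X a)`, or
  a case of the Lefschetz standard conjecture holds for `X a`), or the exterior products of its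
  eigenvectors with those for `q ^ (j a) / z` are algebraic;
* these eigenvalues satisfy only the trivial multiplicative relations.
Then the Tate conjecture holds for every smooth proper scheme `Z` over `k` whose cohomology
is spanned by the images of products of classes of degree `j a` on the `X a` under algebraic
correspondences. -/
theorem result {k : Type u} [Field k] [Finite k] {K : Type v} [Field K] [CharZero K]
    [IsAlgClosed K] (C : Coh.{u, v, w} k K) (hC : C.IsWeil) {ι : Type x} (X : ι → SmProp k)
    (j : ι → ℕ)
    (hTate : ∀ a i x, j a = 2 * i → C.IsEig (X a) (j a) ((Nat.card k : K) ^ i) x →
      C.Alg (X a) i x)
    (hpair : ∀ a z, C.NonTate (X a) (j a) z → C.Paired (X a) (j a) z)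
    (hneat : C.Neat X j) (Z : SmProp k) (hZ : C.Dominated X j Z) :
    C.Tate Z :=
  Coh.main hC X j hTate hpair hneat Z hZ

end Pool.Agent.Results.MP_2a05c8_ag.NeatFrobenius
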